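import Mathlib
import Pool.Agent.Y789.SG.Main
import Pool.Agent.Y789.SG.Exist
import Pool.Agent.Y789.SG.ExistF

set_option autoImplicit false

namespace Pool.Agent.Results.MP_fc6b1e_nt.EveryDegree

open NumberField Pool.Agent.W289.SL

/-- Distinct integers `b_i` and an integer `a` of `k` such that each `b_i - a` is the square of a
nonzero integer `β_i` of `k`. -/
structure SqData {k : Type} [Field k] {d : ℕ} (b : Fin d → ℤ) (a : 𝓞 k) (β : Fin d → 𝓞 k) :
    Prop where
  inj : Function.Injective b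
  sq : ∀ i, (b i : 𝓞 k) - a = β i ^ 2
  ne : ∀ i, β i ≠ 0

/-- `F = ℚ(w)` where `∏ (w - b_i t²) = 1`, and `K` is a quadratic extension of `F` containing
`k`. -/
structure Model (k : Type) [Field k] {d : ℕ} (b : Fin d → ℤ) (t : ℤ) (F K : Type) [Field F]
    [NumberField F] [Field K] [Algebra F K] [Algebra k K] (w : F) : Prop where
  quad : Module.finrank F K = 2
  root : ∏ i, (w - (b i : F) * (t : F) ^ 2) = 1
  gen : IntermediateField.adjoin ℚ {w} = ⊤

/-- Let `p` be a prime, `k` an imaginary quadratic field and `d ≥ 1`. There are systems `(b, a, β)`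
with `∏ β_i² ∉ ℤ`. For every system and all `t ∈ ℤ` outside a finite set: the fields
`F = ℚ(w)`, `∏ (w - b_i t²) = 1`, and `K = F k` exist; `F` is totally real of degree `d`, `K` is a
CM field, `α = w - a t²` is not a square in `K`, and `α c(α)` is not a square if `∏ β_i² ∉ ℤ`; and
for `H = K(√α)` the `Σ`-Leopoldt statement holds for the quadratic character of `H/K`, for every
CM type `Σ` of `K` with values in `ℂ_p`. -/
theorem result (p : ℕ) [Fact p.Prime] (k : Type) [Field k] [NumberField k] [IsTotallyComplex k]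
    (hk : Module.finrank ℚ k = 2) (d : ℕ) (hd : 0 < d) :
    (∃ (b : Fin d → ℤ) (a : 𝓞 k) (β : Fin d → 𝓞 k), SqData b a β ∧
      ∀ n : ℤ, ∏ i, β i ^ 2 ≠ (n : 𝓞 k)) ∧
    ∀ (b : Fin d → ℤ) (a : 𝓞 k) (β : Fin d → 𝓞 k), SqData b a β →
      ∃ S₀ : Set ℤ, S₀.Finite ∧ ∀ t : ℤ, t ∉ S₀ →
        (∃ (F K : Type) (_ : Field F) (_ : NumberField F) (_ : Field K) (_ : NumberField K)
          (_ : Algebra F K) (_ : Algebra k K) (w : F), Model k b t F K w) ∧
        ∀ (F K : Type) [Field F] [NumberField F] [Field K] [NumberField K] [Algebra F K]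
          [Algebra k K] (w : F), Model k b t F K w →
          Module.finrank ℚ F = d ∧ IsTotallyReal F ∧ IsTotallyComplex K ∧
          ¬ IsSquare (algebraMap F K w - algebraMap k K a * (t : K) ^ 2) ∧
          ((∀ n : ℤ, ∏ i, β i ^ 2 ≠ (n : 𝓞 k)) → ∀ c : K ≃ₐ[F] K, c ≠ 1 →
            ¬ IsSquare ((algebraMap F K w - algebraMap k K a * (t : K) ^ 2) *
              c (algebraMap F K w - algebraMap k K a * (t : K) ^ 2))) ∧
          ∀ (H : Type) [Field H] [NumberField H] [Algebra K H] (θ : H),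
            Module.finrank K H = 2 →
            θ ^ 2 = algebraMap K H (algebraMap F K w - algebraMap k K a * (t : K) ^ 2) →
            ∀ S : Set (K →+* ℂ_[p]), IsCMType p F K S →
              ∀ χ : (H ≃ₐ[K] H) →* ℂ_[p]ˣ, χ ≠ 1 → SigmaLeopoldt p K H S χ := by
  refine ⟨?_, ?_⟩
  · obtain ⟨b, a, β, h1, h2, h3, h4⟩ := Pool.Agent.Y789.SG.exists_data hk d hd
    exact ⟨b, a, β, ⟨h1, h2, h3⟩, h4⟩
  · intro b a β hs
    obtain ⟨S₀, hS₀, h⟩ := Pool.Agent.Y789.SG.main_thm p k hk d hd b hs.inj a β hs.sq hs.ne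
    refine ⟨S₀ ∪ Set.Icc (-1) 1, hS₀.union (Set.finite_Icc _ _), ?_⟩
    intro t ht
    rw [Set.mem_union, not_or] at ht
    refine ⟨?_, fun F K _ _ _ _ _ _ w hm => h t ht.1 F K w hm.quad hm.root hm.gen⟩
    have ht2 : 2 ≤ |t| := by
      by_contra hcon
      apply ht.2
      rw [Set.mem_Icc, ← abs_le]
      omega
    have hgap : ∀ i j, i ≠ j → 2 ≤ |b i * t ^ 2 - b j * t ^ 2| := by
      intro i j hij
      have h1 : b i - b j ≠ 0 := sub_ne_zero.2 fun h => hij (hs.inj h)
      have h2 := Int.one_le_abs h1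
      have h3 : 2 ≤ t ^ 2 := by
        rw [← sq_abs]
        nlinarith
      rw [← sub_mul, abs_mul, abs_of_nonneg (by positivity : (0 : ℤ) ≤ t ^ 2)]
      nlinarith
    obtain ⟨F, K, i1, i2, i3, i4, i5, i6, w, h1, h2, h3⟩ :=
      Pool.Agent.Y789.SG.exists_fields (k := k) hk d hd (fun i => b i * t ^ 2) hgap
    refine ⟨F, K, i1, i2, i3, i4, i5, i6, w, ⟨h1, ?_, h3⟩⟩
    rw [← h2]
    refine Finset.prod_congr rfl fun i _ => ?_
    push_cast
    ring

end Pool.Agent.Results.MP_fc6b1e_nt.EveryDegree
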