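import Mathlib
import Pool.Agent.Y18.LC.Sigma4
import Pool.Agent.Y447.LC.RAM
import Pool.Agent.Y447.LC.FLD
import Pool.Agent.Y758.LC.NSB
import Pool.Agent.Y758.LC.DSC
import Pool.Agent.Y944.LC.UNR
import Pool.Agent.Y38.LC.GLF
import Pool.Agent.Y287.LC.CHB
import Pool.Agent.Y86.LC.CYA
import Pool.Agent.Y419.LC.PRD
import Pool.Agent.Y419.LC.SIG
import Pool.Agent.Y419.LC.LCP
import Pool.Agent.Y349.LC.FAM

/-!
# The `Σ`-Leopoldt conjecture for infinitely many characters of order `p` of every CM field `K ⊇ F`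

Let `p` be an odd prime, `F` a totally real number field of degree prime to `p` in which `p` is
unramified, and suppose that the `Σ`-Leopoldt conjecture holds for the trivial character, that is,
Leopoldt's conjecture for `F` and `p`. We consider the characters of `Gal(K L / K)` for the totally
complex quadratic extensions `K` of `F` and the finite extensions `L / ℚ` which are abelian of
exponent `p`.

(1) There is `v`, depending only on `F` and `p`, such that for every abelian extension `F₀ / ℚ` of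
exponent `p` and degree `p ^ m` in which `p` is unramified and every ramified prime has only one
prime of `F` above it, at least `(p ^ (m - v) - 1) / (p - 1)` of the subfields `L` of degree `p` of
`F₀` have the property: for all `K ⊇ F`, all CM types `S` of `K` and all characters `χ` of
`Gal(K L / K)` the `Σ`-Leopoldt statement holds.

(2) In an infinite extension `A / ℚ` of this type there is an infinite extension `M / ℚ` such that
this holds for all finite `L ⊆ M`.

(3) If the degree of `F` is prime, or if some automorphism permutes the embeddings of `F` in one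
cycle, such extensions `A` exist, ramified only at the primes of any given infinite set of primes
`q ≡ 1 (mod p)` with a single prime of `F` above `q`, and there are infinitely many such primes.

(4) Unconditionally, for all odd primes `n ≠ p` there are infinitely many totally real fields `F` of
degree `n`, not Galois over `ℚ`, and for each of them an infinite abelian extension `M / ℚ` of
exponent `p` such that for all totally complex quadratic extensions `K` of `F`, all CM types of `K`,
all finite `L ⊆ M` and all characters of `Gal(K L / K)` the `Σ`-Leopoldt statement holds.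

Proof. A complex conjugation acts trivially on the units of the CM field `K L`, up to roots of
unity, so that the statement follows from Leopoldt's conjecture for the real field `F L`. This is
proved in MP_5f2860_nt.CompositesWithAbelianFields.

The parts were proved together with helpers 37, 38, 44, 86, 287, 349, 419, 447, 548, 758, 847, 899
and 944.
-/

set_option autoImplicit false

namespace Pool.Agent.Results.MP_fc6b1e_nt.RealAbelianTwists

open NumberField Module Filter Topology

/-- Leopoldt's conjecture for the number field `K` and the prime `p`: units of `K` congruent to `1`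
at all primes above `p` which are multiplicatively independent over `ℤ` stay independent over `ℤ_p`
in the product of the completions above `p`. -/
def Leopoldt (K : Type) [Field K] [NumberField K] (p : ℕ) [Fact p.Prime] : Prop :=
  ∀ (n : ℕ) (ε : Fin n → (𝓞 K)ˣ),
    (∀ i, ((ε i : 𝓞 K) - 1) ∈ (Ideal.span {((p : ℕ) : 𝓞 K)}).radical) →
    (∀ c : Fin n → ℤ, ∏ i, ε i ^ c i = 1 → c = 0) →
    ∀ (a : Fin n → PadicInt p) (m : ℕ → Fin n → ℤ),
      (∀ i, Tendsto (fun k => ((m k i : ℤ) : PadicInt p)) atTop (𝓝 (a i))) →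
      (∀ N : ℕ, ∀ᶠ k in atTop,
        ((p : ℕ) : 𝓞 K) ^ N ∣ (((∏ i, ε i ^ m k i : (𝓞 K)ˣ) : 𝓞 K) - 1)) →
      a = 0

/-- The field `L ⊆ Ω` is a number field and satisfies Leopoldt's conjecture at `p`. -/
def LeopoldtFor {Ω : Type} [Field Ω] [CharZero Ω] (L : IntermediateField ℚ Ω) (p : ℕ)
    [Fact p.Prime] : Prop :=
  ∃ _ : NumberField L, Leopoldt L p

/-- The prime number `q` is unramified in the (possibly infinite) algebraic extension `E` of `ℚ`:
`(q)` is a radical ideal of the ring of the algebraic integers of `E`. -/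
def Unramified (E : Type) [Field E] (q : ℕ) : Prop := (Ideal.span {(q : 𝓞 E)}).IsRadical

/-- There is only one prime of `E` above the prime number `q`. -/
def Nonsplit (E : Type) [Field E] (q : ℕ) : Prop :=
  ∀ P P' : Ideal (𝓞 E), P.IsPrime → P'.IsPrime → (q : 𝓞 E) ∈ P → (q : 𝓞 E) ∈ P' → P = P'

/-- `A / ℚ` is a (possibly infinite) Galois extension, with a commutative Galois group of exponent
dividing `p`. -/
def ElementaryAbelian (p : ℕ) (A : Type) [Field A] [Algebra ℚ A] : Prop :=
  IsGalois ℚ A ∧ (∀ g h : A ≃ₐ[ℚ] A, g * h = h * g) ∧ ∀ g : A ≃ₐ[ℚ] A, g ^ p = 1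

/-- The conditions on the ramification of `A / ℚ`: `p` is unramified, and every ramified prime has
only one prime of `F` above it. -/
def Admissible (F A : Type) [Field F] [Field A] (p : ℕ) : Prop :=
  Unramified A p ∧ ∀ q : ℕ, q.Prime → Unramified A q ∨ Nonsplit F q

/-- The degree of `F` is prime, or some automorphism of the algebraic closure of `ℚ` permutes the
embeddings of `F` in one cycle. -/
def HasCycle (F : Type) [Field F] [CharZero F] : Prop :=
  (finrank ℚ F).Prime ∨ ∃ g : AlgebraicClosure ℚ ≃+* AlgebraicClosure ℚ,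
    ∀ τ τ' : F →+* AlgebraicClosure ℚ, ∃ j : ℕ, ∀ x : F, (⇑g)^[j] (τ x) = τ' x

open Pool.Agent.W289.SL in
/-- For every totally complex quadratic extension `K ⊆ Ω` of `F`, every CM type `S` of `K` with
values in `ℂ_p` and every character `χ` of `Gal(K L / K)` the `Σ`-Leopoldt statement holds: the map
`x ↦ (log_p (σ x))_σ`, where `σ` runs through the embeddings `K L → ℂ_p` whose restriction to `K`
lies in `S`, is injective on the `χ`-part of `ℂ_p ⊗ 𝓞_{K L}^×`. -/
def SigmaLeopoldtAll {Ω : Type} [Field Ω] [CharZero Ω] (F L : IntermediateField ℚ Ω) (p : ℕ)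
    [Fact p.Prime] : Prop :=
  ∀ (K : IntermediateField ℚ Ω) (hFK : F ≤ K), FiniteDimensional ℚ K → IsTotallyComplex K →
    finrank ℚ K = 2 * finrank ℚ F → ∃ _ : NumberField ↥(K ⊔ L),
      letI : Algebra F K := (IntermediateField.inclusion hFK).toRingHom.toAlgebra
      letI : Algebra K ↥(K ⊔ L) :=
        (IntermediateField.inclusion (le_sup_left : K ≤ K ⊔ L)).toRingHom.toAlgebra
      ∀ S : Set (K →+* ℂ_[p]), IsCMType p F K S →
        ∀ χ : (↥(K ⊔ L) ≃ₐ[K] ↥(K ⊔ L)) →* ℂ_[p]ˣ, SigmaLeopoldt p K ↥(K ⊔ L) S χ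

open Pool.Agent.Y18.LC in
/-- **Main result.** -/
theorem result (Ω : Type) [Field Ω] [CharZero Ω] (p : ℕ) [Fact p.Prime] (hp : p ≠ 2) :
    (∀ F : IntermediateField ℚ Ω, FiniteDimensional ℚ F → IsTotallyReal F → Unramified F p →
      ¬ p ∣ finrank ℚ F → LeopoldtFor F p →
      (∃ v : ℕ, ∀ (m : ℕ) (F₀ : IntermediateField ℚ Ω), ElementaryAbelian p F₀ →
        finrank ℚ F₀ = p ^ m → Admissible F F₀ p →
        p ^ (m - v) ≤ 1 + (p - 1) * Nat.card {L : IntermediateField ℚ Ω // L ≤ F₀ ∧
          finrank ℚ L = p ∧ SigmaLeopoldtAll F L p}) ∧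
      (∀ A : IntermediateField ℚ Ω, ElementaryAbelian p A → ¬ FiniteDimensional ℚ A →
        Admissible F A p →
        ∃ M : IntermediateField ℚ Ω, M ≤ A ∧ ¬ FiniteDimensional ℚ M ∧
          ∀ L : IntermediateField ℚ Ω, L ≤ M → FiniteDimensional ℚ L → SigmaLeopoldtAll F L p) ∧
      (HasCycle F → IsAlgClosed Ω →
        {q : ℕ | q.Prime ∧ q % p = 1 ∧ Nonsplit F q}.Infinite ∧
        ∀ Q ⊆ {q : ℕ | q.Prime ∧ q % p = 1 ∧ Nonsplit F q}, Q.Infinite →
          ∃ M : IntermediateField ℚ Ω, ElementaryAbelian p M ∧ ¬ FiniteDimensional ℚ M ∧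
            (∀ l : ℕ, l.Prime → l ∉ Q → Unramified M l) ∧
            ∀ L : IntermediateField ℚ Ω, L ≤ M → FiniteDimensional ℚ L →
              SigmaLeopoldtAll F L p)) ∧
    (IsAlgClosed Ω → ∀ n : ℕ, n.Prime → 3 ≤ n → p ≠ n →
      ∀ (ι : Type) [Fintype ι] (E : ι → Type) [∀ i, Field (E i)] [∀ i, NumberField (E i)],
        ∃ F M : IntermediateField ℚ Ω, finrank ℚ F = n ∧ IsTotallyReal F ∧ ¬ IsGalois ℚ F ∧
          (∀ i, IsEmpty (F ≃+* E i)) ∧ ElementaryAbelian p M ∧ ¬ FiniteDimensional ℚ M ∧
          ∀ L : IntermediateField ℚ Ω, L ≤ M → FiniteDimensional ℚ L →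
            SigmaLeopoldtAll F L p) := by
  refine ⟨fun F hF hFr hunr hdeg hFL => ⟨?_, ?_, ?_⟩, ?_⟩
  · obtain ⟨v, hv⟩ := sigma1 Pool.Agent.Y419.LC.lcp Pool.Agent.Y419.LC.sig Pool.Agent.Y447.LC.ram
      Pool.Agent.Y447.LC.fld Pool.Agent.Y944.LC.unr Pool.Agent.Y758.LC.nsb Pool.Agent.Y758.LC.dsc
      F p hp hF hFr hunr hdeg hFL
    exact ⟨v, fun m F₀ h1 h2 h3 => hv m F₀ h1 h2 h3.1 h3.2⟩
  · intro A hA hAinf hAr
    exact sigma2 Pool.Agent.Y419.LC.lcp Pool.Agent.Y419.LC.sig Pool.Agent.Y447.LC.ram
      Pool.Agent.Y447.LC.fld Pool.Agent.Y944.LC.unr Pool.Agent.Y758.LC.nsb Pool.Agent.Y758.LC.dsc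
      F p hp hF hFr hunr hdeg hFL A hA hAinf hAr.1 hAr.2
  · intro hcyc hΩ
    have hnf : NumberField F := nf_of F hF
    refine sigma3 Pool.Agent.Y419.LC.lcp Pool.Agent.Y419.LC.sig Pool.Agent.Y38.LC.glf
      Pool.Agent.Y287.LC.chb Pool.Agent.Y86.LC.cya Pool.Agent.Y447.LC.ram
      Pool.Agent.Y447.LC.fld Pool.Agent.Y944.LC.unr Pool.Agent.Y758.LC.nsb Pool.Agent.Y758.LC.dsc
      F p hp hF hFr hunr hdeg hFL ?_
    rcases hcyc with h | h
    · exact Pool.Agent.Y419.LC.prd F h
    · exact h
  · intro hΩ n hn hn3 hpn ι _ E _ _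
    exact sigma4 Pool.Agent.Y419.LC.lcp Pool.Agent.Y419.LC.sig Pool.Agent.Y38.LC.glf
      Pool.Agent.Y287.LC.chb Pool.Agent.Y86.LC.cya Pool.Agent.Y419.LC.prd Pool.Agent.Y349.LC.fam
      Pool.Agent.Y447.LC.ram Pool.Agent.Y447.LC.fld Pool.Agent.Y944.LC.unr
      Pool.Agent.Y758.LC.nsb Pool.Agent.Y758.LC.dsc n p hn hn3 hp hpn ι E

end Pool.Agent.Results.MP_fc6b1e_nt.RealAbelianTwists
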