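import Pool.Agent.Y194.MU.ST

/-!
# The `Σ`-Leopoldt defect in Galois `p`-extensions

Let `H` be a finite extension of a CM field `K` as in the problem, `[K:ℚ] = 2d`, and let `X_Σ(H)` be the Galois group of the
maximal abelian pro-`p` extension of `H` which is unramified outside the places above `Σ_p`. The unit group of `H` has rank
`d [H:K] - 1` and `∏_{w | Σ_p} U_{1,w}` has `ℤ_p`-rank `d [H:K]`. Let `δ_Σ(H)` be the `ℤ_p`-rank of the kernel of
`ℤ_p ⊗ 𝔬_H^× → ∏_{w | Σ_p} U_{1,w}` modulo torsion. By class field theory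

  `X_Σ(H) ≅ ℤ_p^a × ∏ ℤ/p^{v_i}`  with  `a = 1 + δ_Σ(H)`,

and the number of the homomorphisms `Gal(Ω/H) → ℤ/p^k` which kill the inertia groups at the places not above `Σ_p` is
`p^{a k + ∑ min(k, v_i)}` for all `k`. Q1 asserts that the map `log_{Σ,p}` is injective on `𝔬_H^×[χ]` for all characters
`χ`; for all characters of `Gal(H/K)` at once this says that `δ_Σ(H) = 0`.

Theorem (`S = Σ_p`, `T = ∅`). Let `L'/L` be a Galois extension of degree `p^m` of fields as above, `t` the number of the places
of `L` not above `Σ_p` that ramify in `L'`. Then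

  `δ_Σ(L') + ∑ (1 - p^{-v'_i}) ≤ p^m (δ_Σ(L) + ∑ (1 - p^{-v_i}) + t m (1 - p^{-1}))`,

and for all `j`

  `δ_Σ(L') (1 - p^{-j}) + ∑ (1 - p^{-min(j, v'_i)}) ≤ p^m (δ_Σ(L) (1 - p^{-j}) + ∑ (1 - p^{-min(j, v_i)}) + t m (1 - p^{-1}))`.

In particular for a character `χ` of order `p^m` of `K` one gets an upper bound for the defect of `H` by the `Σ`-Leopoldt
defect of `K` itself, the torsion of `X_Σ(K)` and the number of the places where `χ` ramifies outside `Σ_p`; a
summand `ℤ/p^v` of the torsion costs only `1 - p^{-v}`. If `K` is imaginary quadratic, the defect of `K` is `0`. If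
`X_Σ(L) ≅ ℤ_p` and `t = 0` the bound is `0`: then `X_Σ(L') ≅ ℤ_p` too.

Everything is proved for arbitrary number fields, and any sets of primes `S` (no condition) and `T` (complete
splitting): the homomorphisms kill the inertia groups outside `S` and the decomposition groups above `T`.
-/

set_option autoImplicit false

open IsDedekindDomain NumberField Filter Topology Pool.Agent.Y194.TS Pool.Agent.Y194.MU

namespace Pool.Agent.Results.MP_fc6b1e_nt.SigmaDefectInPExtensions

section

variable {K Ω : Type} [Field K] [Field Ω] [Algebra K Ω]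

/-- `L ⊆ L'` are finite over `K` and `L'/L` is a Galois extension of degree `p^m`; at most `t` places of `L`, not above `S`,
are exceptional: they ramify in `L'` or, if they lie above `T`, do not split completely -/
structure PExt (p m t : ℕ) (S T : Set (HeightOneSpectrum (𝓞 K)))
    (L L' : IntermediateField K Ω) : Prop where
  finite : FiniteDimensional K L'
  le : L ≤ L'
  galois : (L'.fixingSubgroup.subgroupOf L.fixingSubgroup).Normal
  degree : Module.finrank K L' = p ^ m * Module.finrank K L
  few : FewST S T L.fixingSubgroup L'.fixingSubgroup t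

/-- the homomorphisms `Gal(Ω/F) → ℤ/p^k` killing the local groups are `p^{(1 + δ) k + ∑ min(k, v_i)}` in number, for
all `k` -/
def HasDefect (p : ℕ) (S T : Set (HeightOneSpectrum (𝓞 K))) (F : IntermediateField K Ω)
    (δ : ℕ) (v : Multiset ℕ) : Prop :=
  ∀ k, Finite (SChars S T F.fixingSubgroup (p ^ k)) ∧
    Nat.card (SChars S T F.fixingSubgroup (p ^ k)) =
      p ^ ((1 + δ) * k + (v.map (fun i => min k i)).sum)

end

/-- the inequalities for the defects and the exponents of the torsion -/
theorem result {K Ω : Type} [Field K] [NumberField K] [Field Ω] [Algebra K Ω] [IsAlgClosure K Ω]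
    {p : ℕ} [Fact p.Prime] {S T : Set (HeightOneSpectrum (𝓞 K))} {m t : ℕ}
    {L L' : IntermediateField K Ω} (hL : PExt p m t S T L L') {δ δ' : ℕ} {v v' : Multiset ℕ}
    (hv : HasDefect p S T L δ v) (hv' : HasDefect p S T L' δ' v') :
    (∀ j, trunc p j δ' v' ≤ (p : ℝ) ^ m * (trunc p j δ v + t * m * (1 - (p : ℝ)⁻¹))) ∧
    full p δ' v' ≤ (p : ℝ) ^ m * (full p δ v + t * m * (1 - (p : ℝ)⁻¹)) := by
  have hgal : IsGalois K Ω := IsAlgClosure.isGalois K Ω
  have i1 := hL.finite
  have h := pairST (p := p) S T hL.le hL.galois hL.degree hL.few hv hv'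
  have ht : ∀ (j a : ℕ) (w : Multiset ℕ),
      trunc p j (1 + a) w = trunc p j a w + (1 - ((p : ℝ)⁻¹) ^ j) := by
    intro j a w
    unfold trunc
    push_cast
    ring
  have hf : ∀ (a : ℕ) (w : Multiset ℕ), full p (1 + a) w = full p a w + 1 := by
    intro a w
    unfold full
    push_cast
    ring
  constructor
  · intro j
    have h1 := h.1 j
    rw [ht, ht] at h1
    linarith
  · have h1 := h.2
    rw [hf, hf] at h1
    linarith

end Pool.Agent.Results.MP_fc6b1e_nt.SigmaDefectInPExtensions
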